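import Pool.Agent.NL.StmtsB

/-!
# NL, row CHS (helper77): a chain of good neighbours is a step
-/

set_option autoImplicit false

open Finset

noncomputable section

namespace Pool.Agent.NL.H77

/-- the conclusion of ANK -/
def Ac (s : ℕ → ℕ) (N : ℕ) : Prop :=
  ∀ k, 1 ≤ k → ∀ i, i < N → NE.anc s k i < k ∧ (i < k → NE.anc s k i = i) ∧
    NE.anc s k i = if NE.anc s (k + 1) i = k then s k else NE.anc s (k + 1) i

/-- the sum over a class -/
def Dc (N : ℕ) (s : ℕ → ℕ) (K : ℕ) (a : ℕ → ℝ) (j : ℕ) : ℝ :=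
  ∑ i ∈ range N with NE.anc s K i = j, a i

variable {Y : Type} [NormedAddCommGroup Y] [NormedSpace ℝ Y]

/-- the vector of the class sums -/
def Sc (g : ℕ → Y) (N : ℕ) (s : ℕ → ℕ) (K : ℕ) (a : ℕ → ℝ) : Y :=
  ∑ i ∈ range N, a i • g (NE.anc s K i)

variable {g : ℕ → Y} {N : ℕ} {s : ℕ → ℕ} {p : ℕ → ℝ} {ε : ℕ → ℝ}

theorem fib {K : ℕ} (hK : ∀ i, i < N → NE.anc s K i < K) (h : ℕ → Y) (a : ℕ → ℝ) :
    ∑ i ∈ range N, a i • h (NE.anc s K i) = ∑ j ∈ range K, Dc N s K a j • h j := by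
  rw [← sum_fiberwise_of_maps_to (s := range N) (t := range K) (g := fun i => NE.anc s K i)
    (fun i hi => mem_range.2 (hK i (mem_range.1 hi)))]
  refine sum_congr rfl fun j _ => ?_
  unfold Dc
  rw [sum_smul]
  refine sum_congr rfl fun i hi => ?_
  rw [(mem_filter.1 hi).2]

theorem Sc_eq (hA : Ac s N) {k : ℕ} (hk : 1 ≤ k) (a : ℕ → ℝ) :
    Sc g N s k a = ∑ j ∈ range k, Dc N s k a j • g j :=
  fib (fun i hi => (hA k hk i hi).1) g a

theorem Sc_succ (hA : Ac s N) (k : ℕ) (a : ℕ → ℝ) :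
    Sc g N s (k + 1) a = ∑ j ∈ range k, Dc N s (k + 1) a j • g j + Dc N s (k + 1) a k • g k := by
  rw [Sc_eq hA (by omega), sum_range_succ]

theorem Sc_step (hA : Ac s N) {k : ℕ} (hk : 1 ≤ k) (a : ℕ → ℝ) :
    Sc g N s k a = ∑ j ∈ range k, Dc N s (k + 1) a j • g j +
      Dc N s (k + 1) a k • g (s k) := by
  have h2 := fib (K := k + 1) (fun i hi => (hA (k + 1) (by omega) i hi).1)
    (fun j => g (if j = k then s k else j)) a
  rw [sum_range_succ] at h2
  have h1 : Sc g N s k a = ∑ i ∈ range N,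
      a i • g (if NE.anc s (k + 1) i = k then s k else NE.anc s (k + 1) i) := by
    unfold Sc
    refine sum_congr rfl fun i hi => ?_
    rw [(hA k hk i (mem_range.1 hi)).2.2]
  rw [h1]
  refine h2.trans ?_
  rw [if_pos rfl]
  refine congrArg (· + _) (sum_congr rfl fun j hj => ?_)
  rw [if_neg (mem_range.1 hj).ne]

theorem Sc_top (hA : Ac s N) (hN : 1 ≤ N) (a : ℕ → ℝ) :
    Sc g N s N a = ∑ i ∈ range N, a i • g i := by
  unfold Sc
  refine sum_congr rfl fun i hi => ?_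
  rw [(hA N hN i (mem_range.1 hi)).2.1 (mem_range.1 hi)]

theorem Sc_one (hA : Ac s N) (a : ℕ → ℝ) :
    Sc g N s 1 a = (∑ i ∈ range N, a i) • g 0 := by
  unfold Sc
  rw [sum_smul]
  refine sum_congr rfl fun i hi => ?_
  have h1 := (hA 1 le_rfl i (mem_range.1 hi)).1
  rw [Nat.lt_one_iff.1 h1]

theorem lower (hA : Ac s N) {B : Submodule ℝ Y} (hε : ∀ m, 0 ≤ ε m)
    (hlo : ∀ m, 1 ≤ m → m < N → ∀ b ∈ B, ∀ (a : ℕ → ℝ) (β : ℝ),
      ‖b + ∑ j ∈ range m, a j • g j + β • g (s m)‖ ≤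
        (1 + ε m) * ‖b + ∑ j ∈ range m, a j • g j + β • g m‖) (a : ℕ → ℝ) {b : Y}
    (hb : b ∈ B) : ∀ n m : ℕ, m + n = N → 1 ≤ m →
      ‖b + Sc g N s m a‖ ≤ (∏ k ∈ Ico m N, (1 + ε k)) * ‖b + Sc g N s N a‖ := by
  intro n
  induction n with
  | zero =>
    intro m hm _
    rw [add_zero] at hm
    rw [hm, Ico_self, prod_empty, one_mul]
  | succ n ih =>
    intro m hm h1
    have h2 := ih (m + 1) (by omega) (by omega)
    have h3 := hlo m h1 (by omega) b hb (Dc N s (m + 1) a) (Dc N s (m + 1) a m)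
    rw [add_assoc, add_assoc, ← Sc_step hA h1, ← Sc_succ hA] at h3
    rw [prod_eq_prod_Ico_succ_bot (by omega), mul_assoc]
    exact h3.trans (mul_le_mul_of_nonneg_left h2 (by linarith [hε m]))

theorem rt_succ (hA : Ac s N) {m : ℕ} (hm : 1 ≤ m) {r : ℕ → ℝ}
    (hr : ∀ i, i < N → ∀ i', i' < N → NE.anc s m i = NE.anc s m i' → r i = r i') :
    ∀ i, i < N → ∀ i', i' < N → NE.anc s (m + 1) i = NE.anc s (m + 1) i' → r i = r i' := by
  intro i hi i' hi' h
  apply hr i hi i' hi'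
  rw [(hA m hm i hi).2.2, (hA m hm i' hi').2.2, h]

theorem upstep (hA : Ac s N) {B : Submodule ℝ Y} (hp : ∀ j, j < N → 0 < p j)
    (hs : ∀ m, 1 ≤ m → m < N → s m < m)
    (hup : ∀ m, 1 ≤ m → m < N → ∀ b ∈ B, ∀ (a : ℕ → ℝ) (t : ℝ), 0 ≤ t → t ≤ 1 →
      ‖b + ∑ j ∈ range m, a j • g j + (t * a (s m)) • (g m - g (s m))‖ ≤
        (1 + ε m) * ‖b + ∑ j ∈ range m, a j • g j‖) {r : ℕ → ℝ} {b : Y} (hb : b ∈ B) {m : ℕ}
    (hm : 1 ≤ m) (hmN : m < N)
    (hr : ∀ i, i < N → ∀ i', i' < N → NE.anc s m i = NE.anc s m i' → r i = r i') :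
    ‖b + Sc g N s (m + 1) (fun i => p i * r i)‖ ≤
      (1 + ε m) * ‖b + Sc g N s m (fun i => p i * r i)‖ := by
  have hsm := hs m hm hmN
  have hsN : s m < N := by omega
  have hself : NE.anc s m (s m) = s m := (hA m hm (s m) hsN).2.1 hsm
  have hcl : ∀ i, i < N → NE.anc s (m + 1) i = m → NE.anc s m i = s m := by
    intro i hi h
    rw [(hA m hm i hi).2.2, if_pos h]
  have e1 : Dc N s m (fun i => p i * r i) (s m) = Dc N s m p (s m) * r (s m) := by
    unfold Dc
    rw [sum_mul]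
    refine sum_congr rfl fun i hi => ?_
    obtain ⟨hi1, hi2⟩ := mem_filter.1 hi
    change p i * r i = p i * r (s m)
    rw [hr i (mem_range.1 hi1) (s m) hsN (by rw [hi2, hself])]
  have e2 : Dc N s (m + 1) (fun i => p i * r i) m = Dc N s (m + 1) p m * r (s m) := by
    unfold Dc
    rw [sum_mul]
    refine sum_congr rfl fun i hi => ?_
    obtain ⟨hi1, hi2⟩ := mem_filter.1 hi
    change p i * r i = p i * r (s m)
    rw [hr i (mem_range.1 hi1) (s m) hsN (by rw [hcl i (mem_range.1 hi1) hi2, hself])]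
  have hpn : ∀ i ∈ range N, 0 ≤ p i := fun i hi => (hp i (mem_range.1 hi)).le
  have hpos : 0 < Dc N s m p (s m) := by
    unfold Dc
    refine sum_pos' (fun i hi => hpn i (mem_filter.1 hi).1)
      ⟨s m, mem_filter.2 ⟨mem_range.2 hsN, hself⟩, hp _ hsN⟩
  have hle : Dc N s (m + 1) p m ≤ Dc N s m p (s m) := by
    unfold Dc
    refine sum_le_sum_of_subset_of_nonneg ?_ fun i hi _ => hpn i (mem_filter.1 hi).1
    intro i hi
    obtain ⟨hi1, hi2⟩ := mem_filter.1 hi
    exact mem_filter.2 ⟨hi1, hcl i (mem_range.1 hi1) hi2⟩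
  have hnn : 0 ≤ Dc N s (m + 1) p m := by
    unfold Dc
    exact sum_nonneg fun i hi => hpn i (mem_filter.1 hi).1
  have h1 := hup m hm hmN b hb (Dc N s m (fun i => p i * r i))
    (Dc N s (m + 1) p m / Dc N s m p (s m)) (div_nonneg hnn hpos.le) ((div_le_one hpos).2 hle)
  rw [← Sc_eq hA hm] at h1
  have e3 : Dc N s (m + 1) p m / Dc N s m p (s m) * Dc N s m (fun i => p i * r i) (s m) =
      Dc N s (m + 1) (fun i => p i * r i) m := by
    rw [e1, e2, ← mul_assoc, div_mul_cancel₀ _ hpos.ne']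
  rw [e3] at h1
  have e4 : b + Sc g N s m (fun i => p i * r i) +
      Dc N s (m + 1) (fun i => p i * r i) m • (g m - g (s m)) =
      b + Sc g N s (m + 1) (fun i => p i * r i) := by
    rw [Sc_succ hA m, Sc_step hA hm, smul_sub]
    abel
  rw [e4] at h1
  exact h1

theorem upper (hA : Ac s N) {B : Submodule ℝ Y} (hε : ∀ m, 0 ≤ ε m) (hp : ∀ j, j < N → 0 < p j)
    (hs : ∀ m, 1 ≤ m → m < N → s m < m)
    (hup : ∀ m, 1 ≤ m → m < N → ∀ b ∈ B, ∀ (a : ℕ → ℝ) (t : ℝ), 0 ≤ t → t ≤ 1 →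
      ‖b + ∑ j ∈ range m, a j • g j + (t * a (s m)) • (g m - g (s m))‖ ≤
        (1 + ε m) * ‖b + ∑ j ∈ range m, a j • g j‖) {r : ℕ → ℝ} {b : Y} (hb : b ∈ B) :
    ∀ n m : ℕ, m + n = N → 1 ≤ m →
      (∀ i, i < N → ∀ i', i' < N → NE.anc s m i = NE.anc s m i' → r i = r i') →
      ‖b + Sc g N s N (fun i => p i * r i)‖ ≤
        (∏ k ∈ Ico m N, (1 + ε k)) * ‖b + Sc g N s m (fun i => p i * r i)‖ := by
  intro n
  induction n with
  | zero =>
    intro m hm _ _
    rw [add_zero] at hm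
    rw [hm, Ico_self, prod_empty, one_mul]
  | succ n ih =>
    intro m hm h1 hr
    have h2 := ih (m + 1) (by omega) (by omega) (rt_succ hA h1 hr)
    have h3 := upstep hA hp hs hup hb h1 (by omega) hr
    rw [prod_eq_prod_Ico_succ_bot (by omega), mul_comm (1 + ε m), mul_assoc]
    refine h2.trans (mul_le_mul_of_nonneg_left h3 ?_)
    exact prod_nonneg fun k _ => by linarith [hε k]

/-- CHS -/
theorem chs (hANK : AnkStmt) : ChsStmt := by
  classical
  intro Y _ _ B N g p s ε η h2 hp hsum hs hε hprod hη hlo hup hnz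
  have hA : Ac s N := hANK s N hs
  have hN : 1 ≤ N := by omega
  have hone : ∀ m n : ℕ, 1 ≤ ∏ k ∈ Ico m n, (1 + ε k) := by
    intro m n
    calc (1 : ℝ) = ∏ k ∈ Ico m n, (1 : ℝ) := prod_const_one.symm
      _ ≤ _ := prod_le_prod (fun _ _ => zero_le_one) fun k _ => by linarith [hε k]
  have hpr : ∀ m, 1 ≤ m → m ≤ N → ∏ k ∈ Ico m N, (1 + ε k) ≤ 1 + η := by
    intro m h1 h3
    refine le_trans ?_ hprod
    rw [← prod_Ico_consecutive _ h1 h3]
    exact le_mul_of_one_le_left (zero_le_one.trans (hone m N)) (hone 1 m)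
  have hη0 : 1 ≤ 1 + η := (hone 1 N).trans hprod
  refine ⟨h2, hp, hsum, hs, ?_, ?_, ?_, fun a _ h => hnz a h⟩
  · intro b hb A
    have h3 := upper hA hε hp hs hup (r := fun _ => A) hb (N - 1) 1 (by omega) le_rfl
      (fun _ _ _ _ _ => rfl)
    rw [Sc_top hA hN, Sc_one hA, ← sum_mul, hsum, one_mul] at h3
    have e1 : ∑ i ∈ range N, (p i * A) • g i = A • ∑ j ∈ range N, p j • g j := by
      rw [smul_sum]
      exact sum_congr rfl fun i _ => by rw [smul_smul, mul_comm]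
    rw [e1] at h3
    exact h3.trans (mul_le_mul_of_nonneg_right (hpr 1 le_rfl hN) (norm_nonneg _))
  · intro b hb a
    have h3 := lower hA hε hlo a hb (N - 1) 1 (by omega) le_rfl
    rw [Sc_top hA hN, Sc_one hA] at h3
    exact h3.trans (mul_le_mul_of_nonneg_right (hpr 1 le_rfl hN) (norm_nonneg _))
  · intro b hb a m hm hmN
    have hcls : ∀ (c : ℕ → ℝ) (i : ℕ), NE.cls N s m c i = Dc N s m c (NE.anc s m i) :=
      fun _ _ => rfl
    have eQ : NE.Qs N p s m a = fun i => p i * (NE.cls N s m a i / NE.cls N s m p i) := by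
      funext i
      unfold NE.Qs
      ring
    have h3 := upper hA hε hp hs hup (r := fun i => NE.cls N s m a i / NE.cls N s m p i) hb
      (N - m) m (by omega) hm (fun i _ i' _ h => by
        rw [hcls, hcls, hcls, hcls, h])
    rw [← eQ, Sc_top hA hN] at h3
    have e1 : Sc g N s m (NE.Qs N p s m a) = Sc g N s m a := by
      rw [Sc_eq hA hm, Sc_eq hA hm]
      refine sum_congr rfl fun j hj => ?_
      have hjm := mem_range.1 hj
      have hjN : j < N := by omega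
      have hpos : 0 < Dc N s m p j := by
        unfold Dc
        refine sum_pos' (fun i hi => (hp i (mem_range.1 (mem_filter.1 hi).1)).le)
          ⟨j, mem_filter.2 ⟨mem_range.2 hjN, (hA m hm j hjN).2.1 hjm⟩, hp _ hjN⟩
      have e2 : Dc N s m (NE.Qs N p s m a) j =
          Dc N s m p j * (Dc N s m a j / Dc N s m p j) := by
        have e3 : ∀ c : ℝ, Dc N s m p j * c =
            ∑ i ∈ range N with NE.anc s m i = j, p i * c := fun c => by
          unfold Dc
          rw [sum_mul]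
        rw [eQ, e3]
        change ∑ i ∈ range N with NE.anc s m i = j,
          p i * (NE.cls N s m a i / NE.cls N s m p i) = _
        refine sum_congr rfl fun i hi => ?_
        rw [hcls, hcls, (mem_filter.1 hi).2]
      rw [e2, mul_div_cancel₀ _ hpos.ne']
    rw [e1] at h3
    have h4 := lower hA hε hlo a hb (N - m) m (by omega) hm
    rw [Sc_top hA hN] at h4
    have h5 := hpr m hm hmN.le
    have h6 := hone m N
    have h7 := norm_nonneg (b + ∑ j ∈ range N, a j • g j)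
    calc _ ≤ (∏ k ∈ Ico m N, (1 + ε k)) *
          ((∏ k ∈ Ico m N, (1 + ε k)) * ‖b + ∑ j ∈ range N, a j • g j‖) :=
          h3.trans (mul_le_mul_of_nonneg_left h4 (by linarith))
      _ ≤ _ := by
        rw [← mul_assoc]
        refine mul_le_mul_of_nonneg_right ?_ h7
        nlinarith

end Pool.Agent.NL.H77
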